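import Mathlib

set_option autoImplicit false

/-!
Library file for the D'Arcais log-concavity problem: the coefficient sequences are not
log-concave at `k = 2` along `n = N!`, since `σ(n)/n` is unbounded while the coefficient of `x^2`
is `O(n)` and the coefficient of `x^3` is at least `(n-1)(n-2)/12`.
-/

namespace Pool.Agent.Y348.DArcais

open Finset

/-- The D'Arcais polynomials, by their recursion. -/
noncomputable def dP : ℕ → Polynomial ℚ
  | 0 => 1
  | (n + 1) =>
      Polynomial.C (1 / ((n : ℚ) + 1)) * (Polynomial.X *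
        ∑ k : Fin (n + 1),
          ((ArithmeticFunction.sigma 1 (k.val + 1) : ℕ) : Polynomial ℚ) * dP (n - k.val))
  decreasing_by
    omega

theorem dP_zero : dP 0 = 1 := by
  rw [dP]

theorem dP_rec (n : ℕ) (hn : 1 ≤ n) :
    (n : Polynomial ℚ) * dP n =
      Polynomial.X * ∑ k ∈ Finset.Icc 1 n,
        ((ArithmeticFunction.sigma 1 k : ℕ) : Polynomial ℚ) * dP (n - k) := by
  obtain ⟨m, rfl⟩ : ∃ m, n = m + 1 := ⟨n - 1, by omega⟩
  rw [dP]
  have h1 : ((m + 1 : ℕ) : Polynomial ℚ) * Polynomial.C (1 / ((m : ℚ) + 1)) = 1 := by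
    have : ((m + 1 : ℕ) : Polynomial ℚ) = Polynomial.C ((m : ℚ) + 1) := by
      simp
    rw [this, ← Polynomial.C_mul]
    have h : ((m : ℚ) + 1) * (1 / ((m : ℚ) + 1)) = 1 := by
      field_simp
    rw [h, Polynomial.C_1]
  rw [← mul_assoc, h1, one_mul]
  congr 1
  rw [Finset.sum_fin_eq_sum_range]
  have h2 : Finset.Icc 1 (m + 1) = Finset.Ico 1 (m + 2) := by
    ext x; simp only [Finset.mem_Icc, Finset.mem_Ico]; omega
  rw [h2, Finset.sum_Ico_eq_sum_range]
  apply Finset.sum_congr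
  · rfl
  · intro x hx
    simp only [Finset.mem_range] at hx
    have hx' : x < m + 1 := by omega
    rw [dif_pos hx']
    have e1 : 1 + x = x + 1 := by ring
    have e2 : m + 1 - (1 + x) = m - x := by omega
    rw [e2, e1]

section Coeffs

variable {P : ℕ → Polynomial ℚ} (h0 : P 0 = 1)
  (hrec : ∀ n : ℕ, 1 ≤ n →
        (n : Polynomial ℚ) * P n =
          Polynomial.X * ∑ k ∈ Finset.Icc 1 n,
            ((ArithmeticFunction.sigma 1 k : ℕ) : Polynomial ℚ) * P (n - k))

include hrec in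
theorem coeff_succ (n k : ℕ) (hn : 1 ≤ n) :
    (n : ℚ) * (P n).coeff (k + 1) =
      ∑ j ∈ Finset.Icc 1 n, (ArithmeticFunction.sigma 1 j : ℚ) * (P (n - j)).coeff k := by
  have h := congrArg (fun p => Polynomial.coeff p (k + 1)) (hrec n hn)
  simp only [Polynomial.coeff_natCast_mul, Polynomial.coeff_X_mul,
    Polynomial.finsetSum_coeff] at h
  exact h

include hrec in
theorem coeff_zero (n : ℕ) (hn : 1 ≤ n) : (P n).coeff 0 = 0 := by
  have h : (n : ℚ) * (P n).coeff 0 = 0 := by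
    rw [← Polynomial.coeff_natCast_mul, hrec n hn, Polynomial.mul_coeff_zero,
      Polynomial.coeff_X_zero, zero_mul]
  rcases mul_eq_zero.mp h with h | h
  · exfalso
    have : n = 0 := by exact_mod_cast h
    omega
  · exact h

/-- abundancy index -/
noncomputable def s (n : ℕ) : ℚ := (ArithmeticFunction.sigma 1 n : ℚ) / n

include h0 hrec in
theorem coeff_one (n : ℕ) : (P n).coeff 1 = s n := by
  rcases Nat.eq_zero_or_pos n with rfl | hn
  · rw [h0]
    simp [s, Polynomial.coeff_one]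
  · have h := coeff_succ hrec n 0 hn
    have h2 : ∑ j ∈ Finset.Icc 1 n, (ArithmeticFunction.sigma 1 j : ℚ) * (P (n - j)).coeff 0
        = (ArithmeticFunction.sigma 1 n : ℚ) := by
      rw [Finset.sum_eq_single n]
      · simp [h0]
      · intro b hb hbn
        rw [Finset.mem_Icc] at hb
        rw [coeff_zero hrec (n - b) (by omega), mul_zero]
      · intro hh
        exfalso
        apply hh
        rw [Finset.mem_Icc]
        omega
    rw [h2] at h
    unfold s
    have hn' : (n : ℚ) ≠ 0 := by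
      have : n ≠ 0 := by omega
      exact_mod_cast this
    rw [eq_div_iff hn']
    simpa [mul_comm] using h

theorem s_eq_sum (n : ℕ) (hn : 1 ≤ n) : s n = ∑ d ∈ n.divisors, (1 : ℚ) / d := by
  unfold s
  rw [ArithmeticFunction.sigma_one_apply]
  rw [← Nat.sum_div_divisors n (fun d => (1 : ℚ) / d)]
  push_cast
  rw [Finset.sum_div]
  apply Finset.sum_congr rfl
  intro d hd
  have hdn := Nat.dvd_of_mem_divisors hd
  have hd0 : d ≠ 0 := by
    rintro rfl
    have := Nat.eq_zero_of_zero_dvd hdn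
    omega
  have hn0 : (n : ℚ) ≠ 0 := by
    have : n ≠ 0 := by omega
    exact_mod_cast this
  have hd0' : (d : ℚ) ≠ 0 := by exact_mod_cast hd0
  rw [Nat.cast_div hdn hd0']
  rw [one_div_div]

theorem s_nonneg (n : ℕ) : 0 ≤ s n := by
  unfold s
  positivity

theorem one_le_s (n : ℕ) (hn : 1 ≤ n) : 1 ≤ s n := by
  rw [s_eq_sum n hn]
  have h : (1 : ℚ) / (1 : ℕ) ≤ ∑ d ∈ n.divisors, (1 : ℚ) / d := by
    apply Finset.single_le_sum (f := fun d : ℕ => (1 : ℚ) / d)
    · intro i _
      positivity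
    · rw [Nat.mem_divisors]
      exact ⟨one_dvd n, by omega⟩
  simpa using h

theorem sigma_eq (n : ℕ) : (ArithmeticFunction.sigma 1 n : ℚ) = n * s n := by
  unfold s
  rcases Nat.eq_zero_or_pos n with rfl | hn
  · simp
  · have hn' : (n : ℚ) ≠ 0 := by
      have : n ≠ 0 := by omega
      exact_mod_cast this
    field_simp

/-- The harmonic number. -/
noncomputable def H (n : ℕ) : ℚ := ∑ e ∈ Finset.Icc 1 n, (1 : ℚ) / e

theorem H_succ (n : ℕ) : H (n + 1) = H n + 1 / ((n : ℚ) + 1) := by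
  unfold H
  rw [Finset.sum_Icc_succ_top (by omega)]
  push_cast
  rfl

theorem H_nonneg (n : ℕ) : 0 ≤ H n := by
  unfold H
  positivity

theorem sq_sum_le (S : Finset ℕ) (f : ℕ → ℚ) (hf : ∀ x, 0 ≤ f x) :
    (∑ d ∈ S, f d) ^ 2 ≤ 2 * ∑ d ∈ S, f d * ∑ e ∈ S.filter (fun e => e ≤ d), f e := by
  have h1 : (∑ d ∈ S, f d) ^ 2 = ∑ d ∈ S, ∑ e ∈ S, f d * f e := by
    rw [sq, Finset.sum_mul_sum]
  have h2 : ∀ d ∈ S, ∀ e ∈ S, f d * f e ≤
      (if e ≤ d then f d * f e else 0) + (if d ≤ e then f d * f e else 0) := by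
    intro d _ e _
    have hd := hf d
    have he := hf e
    have hde : 0 ≤ f d * f e := mul_nonneg hd he
    rcases le_total e d with h | h
    · rw [if_pos h]
      split_ifs <;> linarith
    · rw [if_pos h]
      split_ifs <;> linarith
  have h3 : ∑ d ∈ S, ∑ e ∈ S, f d * f e ≤
      ∑ d ∈ S, ∑ e ∈ S, ((if e ≤ d then f d * f e else 0) + (if d ≤ e then f d * f e else 0)) :=
    Finset.sum_le_sum (fun d hd => Finset.sum_le_sum (fun e he => h2 d hd e he))
  have h4 : ∑ d ∈ S, ∑ e ∈ S, ((if e ≤ d then f d * f e else 0) + (if d ≤ e then f d * f e else 0))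
      = 2 * ∑ d ∈ S, f d * ∑ e ∈ S.filter (fun e => e ≤ d), f e := by
    simp only [Finset.sum_add_distrib]
    have e1 : ∑ d ∈ S, ∑ e ∈ S, (if d ≤ e then f d * f e else 0)
        = ∑ d ∈ S, ∑ e ∈ S, (if e ≤ d then f d * f e else 0) := by
      rw [Finset.sum_comm]
      apply Finset.sum_congr rfl
      intro d _
      apply Finset.sum_congr rfl
      intro e _
      split_ifs
      · ring
      · rfl
    rw [e1, ← two_mul]
    congr 1
    apply Finset.sum_congr rfl
    intro d _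
    rw [Finset.sum_filter, Finset.mul_sum]
    apply Finset.sum_congr rfl
    intro e _
    split_ifs
    · rfl
    · rw [mul_zero]
  rw [h1]
  exact h3.trans (le_of_eq h4)

theorem s_sq_le (n : ℕ) (hn : 1 ≤ n) : s n ^ 2 ≤ 2 * ∑ d ∈ n.divisors, (1 / (d : ℚ)) * H d := by
  rw [s_eq_sum n hn]
  refine (sq_sum_le n.divisors (fun d => (1 : ℚ) / d) (fun x => by positivity)).trans ?_
  apply mul_le_mul_of_nonneg_left _ (by norm_num)
  apply Finset.sum_le_sum
  intro d hd
  apply mul_le_mul_of_nonneg_left _ (by positivity)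
  unfold H
  apply Finset.sum_le_sum_of_subset_of_nonneg
  · intro e he
    rw [Finset.mem_filter] at he
    rw [Finset.mem_Icc]
    refine ⟨?_, he.2⟩
    exact Nat.pos_of_mem_divisors he.1
  · intro i _ _
    positivity

theorem count_multiples (n d : ℕ) (hd : 1 ≤ d) :
    (((Finset.Icc 1 n).filter (fun j => d ∣ j)).card : ℚ) ≤ (n : ℚ) / d := by
  have h : ((Finset.Icc 1 n).filter (fun j => d ∣ j)).card = n / d := by
    have : Finset.Icc 1 n = Finset.Ioc 0 n := by
      ext x; simp only [Finset.mem_Icc, Finset.mem_Ioc]; omega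
    rw [this, Nat.Ioc_filter_dvd_card_eq_div]
  rw [h]
  exact Nat.cast_div_le

theorem sum_H_div_sq (n : ℕ) : ∑ d ∈ Finset.Icc 1 n, H d / (d : ℚ) ^ 2 ≤ 4 := by
  have key : ∀ m : ℕ, ∑ d ∈ Finset.Icc 1 (m + 1), H d / (d : ℚ) ^ 2
      ≤ 4 - (H (m + 1) + 2) / ((m : ℚ) + 1) := by
    intro m
    induction m with
    | zero =>
      simp [H]
      norm_num
    | succ m ih =>
      rw [Finset.sum_Icc_succ_top (by omega)]
      have hH := H_succ (m + 1)
      have hpos : 0 ≤ H (m + 1) := H_nonneg _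
      rw [hH]
      push_cast
      push_cast at hH
      have hm : (0 : ℚ) ≤ m := by positivity
      set a := H (m + 1) with ha
      set x := (m : ℚ) with hx
      have hstep : (a + 1 / (x + 1 + 1)) / (x + 1 + 1) ^ 2 ≤
          (a + 2) / (x + 1) - (a + 1 / (x + 1 + 1) + 2) / (x + 1 + 1) := by
        have hx1 : (0 : ℚ) < x + 1 := by linarith
        have hx2 : (0 : ℚ) < x + 1 + 1 := by linarith
        rw [div_sub_div _ _ (ne_of_gt hx1) (ne_of_gt hx2)]
        rw [div_le_div_iff₀ (by positivity) (by positivity)]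
        have e : (1 : ℚ) / (x + 1 + 1) = (x + 1 + 1)⁻¹ := one_div _
        rw [e]
        set y := (x + 1 + 1)⁻¹ with hy
        have hxy : (x + 1 + 1) * y = 1 := by
          rw [hy]; field_simp
        have hy0 : 0 < y := by positivity
        have hy1 : y ≤ 1 := by
          rw [hy]
          apply inv_le_one_of_one_le₀
          linarith
        have e3 : (x + 1) * y = 1 - y := by
          have := hxy
          linarith [this, show (x + 1 + 1) * y = (x + 1) * y + y by ring]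
        -- reduce to polynomial inequality
        have e4 : (a + y) * ((x + 1) * (x + 1 + 1))
            = a * (x + 1) * (x + 1 + 1) + (x + 1) * ((x + 1 + 1) * y) := by ring
        have e5 : ((a + 2) * (x + 1 + 1) - (x + 1) * (a + y + 2)) * (x + 1 + 1) ^ 2
            = (a + 2 - (x + 1) * y) * (x + 1 + 1) ^ 2 := by ring
        rw [e4, e5, hxy, e3]
        nlinarith [mul_nonneg hpos hx1.le, mul_nonneg hpos hx2.le, mul_pos hy0 hx2, hy0, hpos]
      linarith
  rcases Nat.eq_zero_or_pos n with rfl | hn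
  · simp
  · obtain ⟨m, rfl⟩ : ∃ m, n = m + 1 := ⟨n - 1, by omega⟩
    refine (key m).trans ?_
    have : 0 ≤ (H (m + 1) + 2) / ((m : ℚ) + 1) := by
      have := H_nonneg (m + 1)
      positivity
    linarith

theorem sum_s_sq_le (n : ℕ) : ∑ j ∈ Finset.Icc 1 n, s j ^ 2 ≤ 8 * n := by
  have h1 : ∑ j ∈ Finset.Icc 1 n, s j ^ 2 ≤
      ∑ j ∈ Finset.Icc 1 n, 2 * ∑ d ∈ j.divisors, (1 / (d : ℚ)) * H d := by
    apply Finset.sum_le_sum
    intro j hj
    rw [Finset.mem_Icc] at hj
    exact s_sq_le j hj.1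
  have h2 : ∑ j ∈ Finset.Icc 1 n, 2 * ∑ d ∈ j.divisors, (1 / (d : ℚ)) * H d
      = 2 * ∑ j ∈ Finset.Icc 1 n, ∑ d ∈ Finset.Icc 1 n,
          (if d ∣ j then (1 / (d : ℚ)) * H d else 0) := by
    rw [← Finset.mul_sum]
    congr 1
    apply Finset.sum_congr rfl
    intro j hj
    rw [Finset.mem_Icc] at hj
    rw [← Finset.sum_filter]
    apply Finset.sum_congr _ (fun _ _ => rfl)
    ext d
    rw [Nat.mem_divisors, Finset.mem_filter, Finset.mem_Icc]
    constructor
    · rintro ⟨hdj, hj0⟩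
      have : d ≤ j := Nat.le_of_dvd (by omega) hdj
      have : 0 < d := Nat.pos_of_dvd_of_pos hdj (by omega)
      exact ⟨⟨by omega, by omega⟩, hdj⟩
    · rintro ⟨_, hdj⟩
      exact ⟨hdj, by omega⟩
  rw [Finset.sum_comm] at h2
  have h3 : ∀ d ∈ Finset.Icc 1 n, ∑ j ∈ Finset.Icc 1 n, (if d ∣ j then (1 / (d : ℚ)) * H d else 0)
      ≤ n * (H d / (d : ℚ) ^ 2) := by
    intro d hd
    rw [Finset.mem_Icc] at hd
    rw [← Finset.sum_filter, Finset.sum_const, nsmul_eq_mul]
    have hc := count_multiples n d hd.1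
    have hHd := H_nonneg d
    have hd' : (0 : ℚ) < d := by
      have : 0 < d := by omega
      exact_mod_cast this
    calc (((Finset.Icc 1 n).filter (fun j => d ∣ j)).card : ℚ) * (1 / (d : ℚ) * H d)
        ≤ (n : ℚ) / d * (1 / (d : ℚ) * H d) := by
          apply mul_le_mul_of_nonneg_right hc
          positivity
      _ = n * (H d / (d : ℚ) ^ 2) := by
          field_simp
  have h4 : ∑ d ∈ Finset.Icc 1 n, ∑ j ∈ Finset.Icc 1 n,
      (if d ∣ j then (1 / (d : ℚ)) * H d else 0) ≤ n * 4 := by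
    refine (Finset.sum_le_sum h3).trans ?_
    rw [← Finset.mul_sum]
    apply mul_le_mul_of_nonneg_left (sum_H_div_sq n) (by positivity)
  calc _ ≤ _ := h1
    _ = _ := h2
    _ ≤ 2 * (n * 4) := by
        apply mul_le_mul_of_nonneg_left h4 (by norm_num)
    _ = 8 * n := by ring

include h0 hrec in
theorem coeff_two_le (n : ℕ) (hn : 1 ≤ n) : (P n).coeff 2 ≤ 8 * n := by
  have h := coeff_succ hrec n 1 hn
  have hn' : (0 : ℚ) < n := by exact_mod_cast hn
  have h1 : ∑ j ∈ Finset.Icc 1 n, (ArithmeticFunction.sigma 1 j : ℚ) * (P (n - j)).coeff 1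
      ≤ n * ∑ j ∈ Finset.Icc 1 n, s j * s (n - j) := by
    rw [Finset.mul_sum]
    apply Finset.sum_le_sum
    intro j hj
    rw [Finset.mem_Icc] at hj
    rw [coeff_one h0 hrec, sigma_eq]
    have h1 : (j : ℚ) ≤ n := by exact_mod_cast hj.2
    have h2 := s_nonneg j
    have h3 := s_nonneg (n - j)
    have h4 : 0 ≤ s j * s (n - j) := mul_nonneg h2 h3
    nlinarith
  have h2 : ∑ j ∈ Finset.Icc 1 n, s j * s (n - j) ≤ ∑ j ∈ Finset.Icc 1 n, s j ^ 2 := by
    have e1 : ∑ j ∈ Finset.Icc 1 n, s j * s (n - j)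
        ≤ ∑ j ∈ Finset.Icc 1 n, (s j ^ 2 / 2 + s (n - j) ^ 2 / 2) := by
      apply Finset.sum_le_sum
      intro j _
      nlinarith [sq_nonneg (s j - s (n - j))]
    have e2 : ∑ j ∈ Finset.Icc 1 n, s (n - j) ^ 2 ≤ ∑ j ∈ Finset.Icc 1 n, s j ^ 2 := by
      have e3 : ∑ j ∈ Finset.Icc 1 n, s (n - j) ^ 2 = ∑ j ∈ Finset.range n, s j ^ 2 := by
        apply Finset.sum_bij' (fun j _ => n - j) (fun j _ => n - j)
        · intro a ha
          rw [Finset.mem_Icc] at ha
          rw [Finset.mem_range]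
          omega
        · intro a ha
          rw [Finset.mem_range] at ha
          rw [Finset.mem_Icc]
          omega
        · intro a ha
          rw [Finset.mem_Icc] at ha
          omega
        · intro a ha
          rw [Finset.mem_range] at ha
          omega
        · intro a _
          rfl
      rw [e3]
      have e4 : ∑ j ∈ Finset.range n, s j ^ 2 = ∑ j ∈ Finset.Ico 1 n, s j ^ 2 := by
        obtain ⟨m, rfl⟩ : ∃ m, n = m + 1 := ⟨n - 1, by omega⟩
        rw [Finset.range_eq_Ico, Finset.sum_eq_sum_Ico_succ_bot (by omega)]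
        simp [s]
      rw [e4]
      apply Finset.sum_le_sum_of_subset_of_nonneg
      · intro x hx
        rw [Finset.mem_Ico] at hx
        rw [Finset.mem_Icc]
        omega
      · intro i _ _
        positivity
    rw [Finset.sum_add_distrib, ← Finset.sum_div, ← Finset.sum_div] at e1
    linarith
  have h3 := sum_s_sq_le n
  have h4 : (n : ℚ) * (P n).coeff 2 ≤ n * (8 * n) := by
    have : (n : ℚ) * (P n).coeff (1 + 1) = (n : ℚ) * (P n).coeff 2 := rfl
    rw [← this, h]
    refine h1.trans ?_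
    apply mul_le_mul_of_nonneg_left (h2.trans h3) hn'.le
  exact le_of_mul_le_mul_left h4 hn'

theorem sum_id (n : ℕ) : ∑ j ∈ Finset.range n, (j : ℚ) = n * (n - 1) / 2 := by
  induction n with
  | zero => simp
  | succ n ih =>
    rw [Finset.sum_range_succ, ih]
    push_cast
    ring

theorem sum_sq (n : ℕ) : ∑ j ∈ Finset.range n, (j : ℚ) ^ 2 = n * (n - 1) * (2 * n - 1) / 6 := by
  induction n with
  | zero => simp
  | succ n ih =>
    rw [Finset.sum_range_succ, ih]
    push_cast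
    ring

include h0 hrec in
theorem coeff_two_ge (n : ℕ) (hn : 1 ≤ n) : ((n : ℚ) - 1) / 2 ≤ (P n).coeff 2 := by
  have h := coeff_succ hrec n 1 hn
  have hn' : (0 : ℚ) < n := by exact_mod_cast hn
  have h1 : ∑ j ∈ Finset.range n, (j : ℚ) ≤
      ∑ j ∈ Finset.Icc 1 n, (ArithmeticFunction.sigma 1 j : ℚ) * (P (n - j)).coeff 1 := by
    have e1 : ∑ j ∈ Finset.range n, (j : ℚ) = ∑ j ∈ Finset.Ico 1 n, (j : ℚ) := by
      obtain ⟨m, rfl⟩ : ∃ m, n = m + 1 := ⟨n - 1, by omega⟩
      rw [Finset.range_eq_Ico, Finset.sum_eq_sum_Ico_succ_bot (by omega)]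
      simp
    rw [e1]
    have e2 : ∑ j ∈ Finset.Ico 1 n, (j : ℚ) ≤
        ∑ j ∈ Finset.Ico 1 n, (ArithmeticFunction.sigma 1 j : ℚ) * (P (n - j)).coeff 1 := by
      apply Finset.sum_le_sum
      intro j hj
      rw [Finset.mem_Ico] at hj
      rw [coeff_one h0 hrec, sigma_eq]
      have h1 := one_le_s j hj.1
      have h2 := one_le_s (n - j) (by omega)
      have h3 : (0 : ℚ) ≤ j := by positivity
      have h4 : 1 ≤ s j * s (n - j) := by nlinarith
      nlinarith
    refine e2.trans ?_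
    apply Finset.sum_le_sum_of_subset_of_nonneg
    · intro x hx
      rw [Finset.mem_Ico] at hx
      rw [Finset.mem_Icc]
      omega
    · intro i _ _
      rw [coeff_one h0 hrec]
      have := s_nonneg (n - i)
      positivity
  rw [sum_id, ← h] at h1
  have h2 : (n : ℚ) * (P n).coeff (1 + 1) = (n : ℚ) * (P n).coeff 2 := rfl
  rw [h2] at h1
  have h3 : (n : ℚ) * (((n : ℚ) - 1) / 2) ≤ n * (P n).coeff 2 := by linarith
  exact le_of_mul_le_mul_left h3 hn'

include h0 hrec in
theorem coeff_three_ge (n : ℕ) (hn : 1 ≤ n) :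
    ((n : ℚ) - 1) * (n - 2) / 12 ≤ (P n).coeff 3 := by
  have h := coeff_succ hrec n 2 hn
  have hn' : (0 : ℚ) < n := by exact_mod_cast hn
  have h1 : ∑ j ∈ Finset.range n, (j : ℚ) * (((n : ℚ) - j - 1) / 2) ≤
      ∑ j ∈ Finset.Icc 1 n, (ArithmeticFunction.sigma 1 j : ℚ) * (P (n - j)).coeff 2 := by
    have e1 : ∑ j ∈ Finset.range n, (j : ℚ) * (((n : ℚ) - j - 1) / 2)
        = ∑ j ∈ Finset.Ico 1 n, (j : ℚ) * (((n : ℚ) - j - 1) / 2) := by
      obtain ⟨m, rfl⟩ : ∃ m, n = m + 1 := ⟨n - 1, by omega⟩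
      rw [Finset.range_eq_Ico, Finset.sum_eq_sum_Ico_succ_bot (by omega)]
      simp
    rw [e1]
    have e2 : ∑ j ∈ Finset.Ico 1 n, (j : ℚ) * (((n : ℚ) - j - 1) / 2) ≤
        ∑ j ∈ Finset.Ico 1 n, (ArithmeticFunction.sigma 1 j : ℚ) * (P (n - j)).coeff 2 := by
      apply Finset.sum_le_sum
      intro j hj
      rw [Finset.mem_Ico] at hj
      rw [sigma_eq]
      have h1 := one_le_s j hj.1
      have h2 := coeff_two_ge h0 hrec (n - j) (by omega)
      have h3 : (0 : ℚ) ≤ j := by positivity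
      have h5 : ((n - j : ℕ) : ℚ) = (n : ℚ) - j := by
        rw [Nat.cast_sub (by omega)]
      rw [h5] at h2
      have h6 : (0 : ℚ) ≤ ((n : ℚ) - j - 1) / 2 := by
        have : (j : ℚ) + 1 ≤ n := by exact_mod_cast hj.2
        linarith
      have h7 : (j : ℚ) ≤ j * s j := by nlinarith
      calc (j : ℚ) * (((n : ℚ) - j - 1) / 2) ≤ (j * s j) * (((n : ℚ) - j - 1) / 2) :=
            mul_le_mul_of_nonneg_right h7 h6
        _ ≤ (j * s j) * (P (n - j)).coeff 2 := by
            apply mul_le_mul_of_nonneg_left h2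
            linarith
    refine e2.trans ?_
    apply Finset.sum_le_sum_of_subset_of_nonneg
    · intro x hx
      rw [Finset.mem_Ico] at hx
      rw [Finset.mem_Icc]
      omega
    · intro i hi _
      rw [Finset.mem_Icc] at hi
      apply mul_nonneg (by positivity)
      rcases Nat.eq_zero_or_pos (n - i) with h0' | h0'
      · rw [h0', h0]
        simp [Polynomial.coeff_one]
      · refine le_trans ?_ (coeff_two_ge h0 hrec (n - i) h0')
        have : (1 : ℚ) ≤ ((n - i : ℕ) : ℚ) := by exact_mod_cast h0'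
        linarith
  have e3 : ∑ j ∈ Finset.range n, (j : ℚ) * (((n : ℚ) - j - 1) / 2)
      = ((n : ℚ) - 1) / 2 * ∑ j ∈ Finset.range n, (j : ℚ)
        - 1 / 2 * ∑ j ∈ Finset.range n, (j : ℚ) ^ 2 := by
    rw [Finset.mul_sum, Finset.mul_sum, ← Finset.sum_sub_distrib]
    apply Finset.sum_congr rfl
    intro j _
    ring
  rw [e3, sum_id, sum_sq, ← h] at h1
  have h2 : (n : ℚ) * (P n).coeff (2 + 1) = (n : ℚ) * (P n).coeff 3 := rfl
  rw [h2] at h1
  have h3 : (n : ℚ) * (((n : ℚ) - 1) * (n - 2) / 12) ≤ n * (P n).coeff 3 := by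
    refine le_trans (le_of_eq ?_) h1
    ring
  exact le_of_mul_le_mul_left h3 hn'

end Coeffs

theorem H_pow_two (k : ℕ) : (k : ℚ) / 2 ≤ H (2 ^ k) := by
  induction k with
  | zero => simp [H]
  | succ k ih =>
    have h1 : H (2 ^ (k + 1)) = H (2 ^ k) + ∑ e ∈ Finset.Ioc (2 ^ k) (2 ^ (k + 1)), (1 : ℚ) / (e : ℕ) := by
      unfold H
      have e1 : Finset.Icc 1 (2 ^ (k + 1)) = Finset.Ioc 0 (2 ^ (k + 1)) := by
        ext x; simp only [Finset.mem_Icc, Finset.mem_Ioc]; omega
      have e2 : Finset.Icc 1 (2 ^ k) = Finset.Ioc 0 (2 ^ k) := by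
        ext x; simp only [Finset.mem_Icc, Finset.mem_Ioc]; omega
      rw [e1, e2]
      have hle : 2 ^ k ≤ 2 ^ (k + 1) := Nat.pow_le_pow_right (by norm_num) (by omega)
      rw [Finset.sum_Ioc_consecutive _ (Nat.zero_le _) hle]
    have h2 : (1 : ℚ) / 2 ≤ ∑ e ∈ Finset.Ioc (2 ^ k) (2 ^ (k + 1)), (1 : ℚ) / (e : ℕ) := by
      have h3 : ∑ _e ∈ (Finset.Ioc (2 ^ k) (2 ^ (k + 1)) : Finset ℕ), (1 : ℚ) / ((2 : ℚ) ^ (k + 1))
          ≤ ∑ e ∈ Finset.Ioc (2 ^ k) (2 ^ (k + 1)), (1 : ℚ) / (e : ℕ) := by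
        apply Finset.sum_le_sum
        intro e he
        rw [Finset.mem_Ioc] at he
        have he0 : (0 : ℚ) < e := by
          have : 0 < e := by omega
          exact_mod_cast this
        apply one_div_le_one_div_of_le he0
        exact_mod_cast he.2
      refine le_trans (le_of_eq ?_) h3
      rw [Finset.sum_const, Nat.card_Ioc, nsmul_eq_mul]
      have h4 : ((2 ^ (k + 1) - 2 ^ k : ℕ) : ℚ) = (2 : ℚ) ^ k := by
        have : 2 ^ (k + 1) - 2 ^ k = 2 ^ k := by
          rw [pow_succ]; omega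
        rw [this]; push_cast; rfl
      rw [h4, pow_succ]
      field_simp
    rw [h1]
    push_cast
    linarith

theorem H_le_s_factorial (N : ℕ) : H N ≤ s (Nat.factorial N) := by
  rw [s_eq_sum _ (Nat.factorial_pos N)]
  unfold H
  apply Finset.sum_le_sum_of_subset_of_nonneg
  · intro d hd
    rw [Finset.mem_Icc] at hd
    rw [Nat.mem_divisors]
    exact ⟨Nat.dvd_factorial (by omega) hd.2, Nat.factorial_ne_zero N⟩
  · intro i _ _
    positivity

theorem main :
    ¬ (∀ P : ℕ → Polynomial ℚ, P 0 = 1 →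
      (∀ n : ℕ, 1 ≤ n →
        (n : Polynomial ℚ) * P n =
          Polynomial.X * ∑ k ∈ Finset.Icc 1 n,
            ((ArithmeticFunction.sigma 1 k : ℕ) : Polynomial ℚ) * P (n - k)) →
      ∀ n k : ℕ, 1 ≤ k →
        (P n).coeff (k - 1) * (P n).coeff (k + 1) ≤ (P n).coeff k ^ 2) := by
  intro hall
  have hlc := hall dP dP_zero dP_rec
  generalize hN : (2 : ℕ) ^ (3200 : ℕ) = N
  have hH : (1600 : ℚ) ≤ H N := by
    have h := H_pow_two 3200
    rw [hN] at h
    have e : ((3200 : ℕ) : ℚ) / 2 = 1600 := by norm_num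
    rw [e] at h
    exact h
  have hN6 : 6 ≤ N := by
    rw [← hN]
    calc 6 ≤ 2 ^ 3 := by norm_num
      _ ≤ 2 ^ 3200 := Nat.pow_le_pow_right (by norm_num) (by norm_num)
  set n := Nat.factorial N with hn
  have hn6 : 6 ≤ n := hN6.trans (Nat.self_le_factorial N)
  have hn1 : 1 ≤ n := by omega
  have h := hlc n 2 (by norm_num)
  have e1 : (2 : ℕ) - 1 = 1 := rfl
  have e2 : (2 : ℕ) + 1 = 3 := rfl
  rw [e1, e2] at h
  have hs : (1600 : ℚ) ≤ s n := hH.trans (H_le_s_factorial N)
  have a1 := coeff_one dP_zero dP_rec n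
  have a2 := coeff_two_le dP_zero dP_rec n hn1
  have a2' := coeff_two_ge dP_zero dP_rec n hn1
  have a3 := coeff_three_ge dP_zero dP_rec n hn1
  rw [a1] at h
  have hnq : (6 : ℚ) ≤ n := by exact_mod_cast hn6
  have b1 : 0 ≤ (dP n).coeff 2 := by
    refine le_trans ?_ a2'
    linarith
  have b2 : (dP n).coeff 2 ^ 2 ≤ (8 * n) ^ 2 := pow_le_pow_left₀ b1 a2 2
  have b3 : 0 ≤ ((n : ℚ) - 1) * (n - 2) / 12 := by
    have : (0 : ℚ) ≤ (n - 1) * (n - 2) := by nlinarith
    linarith
  have b4 : 1600 * (((n : ℚ) - 1) * (n - 2) / 12) ≤ s n * (dP n).coeff 3 := by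
    apply mul_le_mul hs a3 b3
    linarith
  have b5 : (n : ℚ) ^ 2 / 2 ≤ ((n : ℚ) - 1) * (n - 2) := by nlinarith
  nlinarith

end Pool.Agent.Y348.DArcais
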